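import Mathlib

set_option autoImplicit false

namespace Pool.Agent.Results.MP_6bd959_co.BoundedExample

open Polynomial

universe u

/-- The Euclidean plane. -/
abbrev Plane : Type := EuclideanSpace ℝ (Fin 2)

/-- The translate `P + x`. -/
def translate (P : Set Plane) (x : Plane) : Set Plane := {y | ∃ p ∈ P, y = p + x}

/-- The indexed family `(P + t i)` (repetitions allowed) is an `m`-fold covering of `S`:
every point of `S` lies in at least `m` members of the family. -/
def IsFoldCovering {ι : Type u} (m : ℕ) (P : Set Plane) (t : ι → Plane) (S : Set Plane) : Prop :=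
  ∀ x ∈ S, (m : ℕ∞) ≤ Set.encard {i : ι | x ∈ translate P (t i)}

/-- The subfamily of `(P + t i)` with indices in `A` covers `S`. -/
def Covers {ι : Type u} (P : Set Plane) (t : ι → Plane) (A : Set ι) (S : Set Plane) : Prop :=
  ∀ x ∈ S, ∃ i ∈ A, x ∈ translate P (t i)

/-- The family `(P + t i)` can be partitioned into two subfamilies each of which covers `S`. -/
def DecomposesIntoTwoCoverings {ι : Type u} (P : Set Plane) (t : ι → Plane) (S : Set Plane) :
    Prop :=
  ∃ A : Set ι, Covers P t A S ∧ Covers P t Aᶜ S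

/-- `P` is cover-decomposable. -/
def CoverDecomposable (P : Set Plane) : Prop :=
  ∃ m : ℕ, 2 ≤ m ∧ ∀ (ι : Type u) (t : ι → Plane),
    IsFoldCovering m P t Set.univ → DecomposesIntoTwoCoverings P t Set.univ

/-- `P` is totally-cover-decomposable. -/
def TotallyCoverDecomposable (P : Set Plane) : Prop :=
  ∃ m : ℕ, 2 ≤ m ∧ ∀ (S : Set Plane) (ι : Type u) (t : ι → Plane),
    IsFoldCovering m P t S → DecomposesIntoTwoCoverings P t S

/-! ### The combinatorial property of integer polynomials -/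

/-- The top odd coefficient is negative, or there are no odd coefficients and no negative ones. -/
def Phi (p : ℤ[X]) : Prop :=
  (∃ k, Odd k ∧ p.coeff k < 0 ∧ ∀ l, k < l → Odd l → p.coeff l = 0) ∨
    ((∀ k, 0 ≤ p.coeff k) ∧ ∀ k, Odd k → p.coeff k = 0)

lemma phi_step {p c : ℤ[X]} {k : ℕ} (hp : Phi p) (hk : Odd k)
    (hc : ∀ l, k ≤ l → c.coeff l = 0) : Phi (p - X ^ k + c) := by
  left
  rcases hp with ⟨k', hk', hneg, htop⟩ | ⟨_, hodd⟩
  · rcases lt_trichotomy k k' with h | h | h
    · refine ⟨k', hk', ?_, ?_⟩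
      · simp only [coeff_add, coeff_sub, coeff_X_pow, hc k' h.le, if_neg h.ne']
        omega
      · intro l hl hlo
        simp only [coeff_add, coeff_sub, coeff_X_pow, hc l (h.trans hl).le,
          if_neg (h.trans hl).ne', htop l hl hlo]
        omega
    · subst h
      refine ⟨k, hk, ?_, ?_⟩
      · simp only [coeff_add, coeff_sub, coeff_X_pow, hc k le_rfl, if_true]
        omega
      · intro l hl hlo
        simp only [coeff_add, coeff_sub, coeff_X_pow, hc l hl.le,
          if_neg hl.ne', htop l hl hlo]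
        omega
    · refine ⟨k, hk, ?_, ?_⟩
      · simp only [coeff_add, coeff_sub, coeff_X_pow, hc k le_rfl, if_true, htop k h hk]
        omega
      · intro l hl hlo
        simp only [coeff_add, coeff_sub, coeff_X_pow, hc l hl.le,
          if_neg hl.ne', htop l (h.trans hl) hlo]
        omega
  · refine ⟨k, hk, ?_, ?_⟩
    · simp only [coeff_add, coeff_sub, coeff_X_pow, hc k le_rfl, if_true, hodd k hk]
      omega
    · intro l hl hlo
      simp only [coeff_add, coeff_sub, coeff_X_pow, hc l hl.le,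
        if_neg hl.ne', hodd l hlo]
      omega

lemma not_phi_pos {q : ℤ[X]} {k : ℕ} (hk : Odd k) (hq : ∀ l, k ≤ l → q.coeff l = 0) :
    ¬ Phi (X ^ k + q) := by
  rintro (⟨k', hk', hneg, htop⟩ | ⟨_, hodd⟩)
  · rcases lt_trichotomy k k' with h | h | h
    · simp only [coeff_add, coeff_X_pow, hq k' h.le, if_neg h.ne'] at hneg
      omega
    · subst h
      simp only [coeff_add, coeff_X_pow, hq k le_rfl, if_true] at hneg
      omega
    · have := htop k h hk
      simp only [coeff_add, coeff_X_pow, hq k le_rfl, if_true] at this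
      omega
  · have := hodd k hk
    simp only [coeff_add, coeff_X_pow, hq k le_rfl, if_true] at this
    omega

/-! ### Two general combinatorial lemmas -/

/-- A countable family of infinite sets has property B. -/
lemma exists_split {κ α : Type*} [Countable κ] (E : κ → Set α) (hE : ∀ a, (E a).Infinite) :
    ∃ A : Set α, ∀ a, (E a ∩ A).Nonempty ∧ (E a \ A).Nonempty := by
  classical
  obtain ⟨enc, henc⟩ := exists_injective_nat κ
  -- finite sets of growing size
  have h1 : ∀ x : κ × Bool, ∃ F : Finset α, (↑F : Set α) ⊆ E x.1 ∧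
      F.card = 2 * enc x.1 + (if x.2 then 2 else 1) :=
    fun x => (hE x.1).exists_subset_card_eq _
  choose F hF hcard using h1
  have hinj : ∀ x y : κ × Bool, 2 * enc x.1 + (if x.2 then 2 else 1) =
      2 * enc y.1 + (if y.2 then 2 else 1) → x = y := by
    rintro ⟨x, b⟩ ⟨y, c⟩ h
    cases b <;> cases c <;> simp at h ⊢
    · exact henc h
    · omega
    · omega
    · exact henc h
  have hall : ∀ s : Finset (κ × Bool), s.card ≤ (s.biUnion F).card := by
    intro s
    rcases s.eq_empty_or_nonempty with rfl | hs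
    · simp
    obtain ⟨x, hx, hmax⟩ := s.exists_max_image
      (fun x : κ × Bool => 2 * enc x.1 + (if x.2 then 2 else 1)) hs
    have h2 : s.card ≤ 2 * enc x.1 + (if x.2 then 2 else 1) := by
      have : s.card ≤ (Finset.Icc 1 (2 * enc x.1 + (if x.2 then 2 else 1))).card := by
        apply Finset.card_le_card_of_injOn
          (fun x : κ × Bool => 2 * enc x.1 + (if x.2 then 2 else 1))
        · intro y hy
          simp only [Finset.coe_Icc, Set.mem_Icc]
          refine ⟨?_, hmax y hy⟩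
          split_ifs <;> omega
        · intro y _ z _ h
          exact hinj y z h
      simpa using this
    calc s.card ≤ _ := h2
      _ = (F x).card := (hcard x).symm
      _ ≤ _ := Finset.card_le_card (Finset.subset_biUnion_of_mem F hx)
  obtain ⟨g, hg, hgF⟩ := (Finset.all_card_le_biUnion_card_iff_exists_injective F).1 hall
  refine ⟨Set.range (fun a => g (a, true)), fun a => ⟨⟨g (a, true), ?_, ⟨a, rfl⟩⟩,
    ⟨g (a, false), ?_, ?_⟩⟩⟩
  · exact hF (a, true) (hgF (a, true))
  · exact hF (a, false) (hgF (a, false))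
  · rintro ⟨b, hb⟩
    have := hg hb
    simp at this

/-! ### The good polynomials for a real number `τ` -/

/-- Polynomials with value in the open unit interval at `τ` and with the property `Phi`. -/
def Good (τ : ℝ) : Set ℤ[X] := {p | 0 < aeval τ p ∧ aeval τ p < 1 ∧ Phi p}

lemma good_closure {τ : ℝ} {p d : ℤ[X]} {k : ℕ} (hp : p ∈ Good τ)
    (hd1 : aeval τ d < 1) (hk : Odd k)
    (hdk : ∀ l, k ≤ l → d.coeff l = 0) (hτk : τ ^ k < aeval τ d) (hτ0 : 0 < τ) :
    p - X ^ k ∈ Good τ ∨ p - X ^ k + d ∈ Good τ := by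
  obtain ⟨h0, h1, hphi⟩ := hp
  have hpos : 0 < τ ^ k := pow_pos hτ0 k
  by_cases h : τ ^ k < aeval τ p
  · left
    refine ⟨?_, ?_, ?_⟩
    · simp only [map_sub, map_pow, aeval_X]
      linarith
    · simp only [map_sub, map_pow, aeval_X]
      linarith
    · have := phi_step (c := 0) hphi hk (fun l _ => by simp)
      simpa using this
  · right
    push Not at h
    refine ⟨?_, ?_, ?_⟩
    · simp only [map_add, map_sub, map_pow, aeval_X]
      linarith
    · simp only [map_add, map_sub, map_pow, aeval_X]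
      linarith
    · exact phi_step hphi hk hdk

lemma exists_large_odd {τ ε : ℝ} (hτ0 : 0 < τ) (hτ1 : τ < 1) (hε : 0 < ε) (K : ℕ) :
    ∃ k, Odd k ∧ K < k ∧ τ ^ k < ε := by
  obtain ⟨n, hn⟩ := exists_pow_lt_of_lt_one hε hτ1
  refine ⟨2 * (n + K) + 1, ⟨n + K, rfl⟩, by omega, ?_⟩
  calc τ ^ (2 * (n + K) + 1) ≤ τ ^ n := pow_le_pow_of_le_one hτ0.le hτ1.le (by omega)
    _ < ε := hn

section coset

variable {ι : Type*} {τ : ℝ} (hτ0 : 0 < τ) (hτ1 : τ < 1) (b : ι → ℤ[X])

include hτ0 hτ1

lemma poor_separated (hcov : ∀ a : ℤ[X], ∃ i, a - b i ∈ Good τ) {a a' : ℤ[X]}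
    (ha : {i | a - b i ∈ Good τ}.Finite) (ha' : {i | a' - b i ∈ Good τ}.Finite)
    (hlt : aeval τ a < aeval τ a') : 1 ≤ aeval τ a' - aeval τ a := by
  by_contra hcon
  push Not at hcon
  set d : ℤ[X] := a' - a with hd
  have hd0 : 0 < aeval τ d := by rw [hd, map_sub]; linarith
  have hd1 : aeval τ d < 1 := by rw [hd, map_sub]; linarith
  have hfin := ha.union ha'
  obtain ⟨K, hK⟩ : ∃ K : ℕ, ∀ i ∈ {i | a - b i ∈ Good τ} ∪ {i | a' - b i ∈ Good τ},
      (a - b i).natDegree ≤ K := by
    obtain ⟨K, hK⟩ := (hfin.image (fun i => (a - b i).natDegree)).bddAbove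
    exact ⟨K, fun i hi => hK ⟨i, hi, rfl⟩⟩
  obtain ⟨k, hko, hkK, hkτ⟩ := exists_large_odd hτ0 hτ1 hd0 (max K d.natDegree)
  obtain ⟨i, hi⟩ := hcov (a + X ^ k)
  have hdk : ∀ l, k ≤ l → d.coeff l = 0 := fun l hl =>
    coeff_eq_zero_of_natDegree_lt (lt_of_lt_of_le (lt_of_le_of_lt (le_max_right _ _) hkK) hl)
  have hmem : i ∈ {i | a - b i ∈ Good τ} ∪ {i | a' - b i ∈ Good τ} := by
    rcases good_closure hi hd1 hko hdk hkτ hτ0 with h | h
    · left
      have e : a + X ^ k - b i - X ^ k = a - b i := by ring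
      rw [e] at h
      exact h
    · right
      have e : a + X ^ k - b i - X ^ k + d = a' - b i := by rw [hd]; ring
      rw [e] at h
      exact h
  have hdeg : ∀ l, k ≤ l → (a - b i).coeff l = 0 := fun l hl =>
    coeff_eq_zero_of_natDegree_lt
      (lt_of_lt_of_le (lt_of_le_of_lt ((hK i hmem).trans (le_max_left _ _)) hkK) hl)
  have e : a + X ^ k - b i = X ^ k + (a - b i) := by ring
  rw [e] at hi
  exact not_phi_pos hko hdeg hi.2.2

lemma coset_split (hinj : Function.Injective (fun p : ℤ[X] => aeval τ p))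
    (hcov : ∀ a : ℤ[X], 2 ≤ Set.encard {i | a - b i ∈ Good τ}) :
    ∃ A : Set ι, ∀ a : ℤ[X], (∃ i ∈ A, a - b i ∈ Good τ) ∧ (∃ i, i ∉ A ∧ a - b i ∈ Good τ) := by
  classical
  have hcnt : Countable ℤ[X] := by
    rw [← Cardinal.mk_le_aleph0_iff]
    refine (Polynomial.cardinalMk_le_max).trans ?_
    simp
  set cov : ℤ[X] → Set ι := fun a => {i | a - b i ∈ Good τ} with hcovdef
  have hne : ∀ a : ℤ[X], ∃ i, a - b i ∈ Good τ := by
    intro a
    have h2 := hcov a
    have : (cov a).Nonempty := by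
      rw [Set.nonempty_iff_ne_empty]
      intro h
      have h3 : {i | a - b i ∈ Good τ} = ∅ := h
      rw [h3] at h2
      simp at h2
    exact this
  have hsep := fun a a' => @poor_separated ι τ hτ0 hτ1 b hne a a'
  -- two polynomials covered by a common member have values at distance less than one
  have hclose : ∀ a a' : ℤ[X], ∀ i, i ∈ cov a → i ∈ cov a' → |aeval τ a - aeval τ a'| < 1 := by
    intro a a' i hi hi'
    have h1 := hi.1
    have h2 := hi.2.1
    have h3 := hi'.1
    have h4 := hi'.2.1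
    rw [map_sub] at h1 h2 h3 h4
    rw [abs_lt]
    constructor <;> linarith
  have hpoor : ∀ a a' : ℤ[X], (cov a).Finite → (cov a').Finite →
      |aeval τ a - aeval τ a'| < 1 → a = a' := by
    intro a a' ha ha' hab
    rw [abs_lt] at hab
    rcases lt_trichotomy (aeval τ a) (aeval τ a') with h | h | h
    · have := hsep a a' ha ha' h
      linarith
    · exact hinj h
    · have := hsep a' a ha' ha h
      linarith
  -- two private members for each poor polynomial
  have hpick : ∀ a : ℤ[X], ∃ x y : ι, x ∈ cov a ∧ y ∈ cov a ∧ x ≠ y := by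
    intro a
    have h2 : 1 < Set.encard (cov a) := lt_of_lt_of_le (by norm_num) (hcov a)
    exact Set.one_lt_encard_iff.1 h2
  choose α β hα hβ hαβ using hpick
  set U : Set ι := {i | ∃ a, (cov a).Finite ∧ (i = α a ∨ i = β a)} with hU
  have hUfin : ∀ a, (cov a ∩ U).Finite := by
    intro a
    have hsub : {a' : ℤ[X] | (cov a').Finite ∧ |aeval τ a - aeval τ a'| < 1}.Finite := by
      have h1 : {a' : ℤ[X] | ((cov a').Finite ∧ |aeval τ a - aeval τ a'| < 1) ∧
          aeval τ a' ≤ aeval τ a}.Subsingleton := by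
        rintro x ⟨⟨hx, hx1⟩, hx2⟩ y ⟨⟨hy, hy1⟩, hy2⟩
        apply hpoor x y hx hy
        rw [abs_lt] at *
        constructor <;> linarith
      have h2 : {a' : ℤ[X] | ((cov a').Finite ∧ |aeval τ a - aeval τ a'| < 1) ∧
          aeval τ a ≤ aeval τ a'}.Subsingleton := by
        rintro x ⟨⟨hx, hx1⟩, hx2⟩ y ⟨⟨hy, hy1⟩, hy2⟩
        apply hpoor x y hx hy
        rw [abs_lt] at *
        constructor <;> linarith
      refine (h1.finite.union h2.finite).subset ?_
      intro x hx
      rcases le_total (aeval τ x) (aeval τ a) with h | h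
      · exact Or.inl ⟨hx, h⟩
      · exact Or.inr ⟨hx, h⟩
    refine ((hsub.image α).union (hsub.image β)).subset ?_
    rintro i ⟨hi, a', ha', hia'⟩
    have hi' : i ∈ cov a' := by
      rcases hia' with rfl | rfl
      · exact hα a'
      · exact hβ a'
    have hm : a' ∈ {a' : ℤ[X] | (cov a').Finite ∧ |aeval τ a - aeval τ a'| < 1} :=
      ⟨ha', hclose a a' i hi hi'⟩
    rcases hia' with rfl | rfl
    · exact Or.inl ⟨a', hm, rfl⟩
    · exact Or.inr ⟨a', hm, rfl⟩
  obtain ⟨A, hA⟩ := exists_split (κ := {a : ℤ[X] // (cov a).Infinite})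
    (fun a => cov a.1 \ U) (fun a => by
      have := a.2.sdiff (hUfin a.1)
      rwa [Set.sdiff_self_inter] at this)
  refine ⟨(A \ U) ∪ {i | ∃ a, (cov a).Finite ∧ i = α a}, fun a => ?_⟩
  by_cases ha : (cov a).Finite
  · refine ⟨⟨α a, Or.inr ⟨a, ha, rfl⟩, hα a⟩, ⟨β a, ?_, hβ a⟩⟩
    rintro (⟨_, h⟩ | ⟨a', ha', h⟩)
    · exact h ⟨a, ha, Or.inr rfl⟩
    · have hmem : β a ∈ cov a' := h ▸ hα a'
      have := hpoor a a' ha ha' (hclose a a' _ (hβ a) hmem)
      subst this
      exact hαβ a h.symm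
  · obtain ⟨⟨x, hx1, hx2⟩, ⟨y, hy1, hy2⟩⟩ := hA ⟨a, ha⟩
    refine ⟨⟨x, Or.inl ⟨hx2, hx1.2⟩, hx1.1⟩, ⟨y, ?_, hy1.1⟩⟩
    rintro (⟨h, _⟩ | ⟨a', ha', h⟩)
    · exact hy2 h
    · exact hy1.2 ⟨a', ha', Or.inl h⟩

end coset

/-! ### The planar set -/

/-- The embedding of `ℤ[X]` into the plane: `p` goes to the point `(p(τ), 0)`. -/
noncomputable def emb (τ : ℝ) : ℤ[X] →+ Plane where
  toFun p := EuclideanSpace.single (0 : Fin 2) (aeval τ p)
  map_zero' := by simp
  map_add' p q := by
    ext i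
    fin_cases i <;> simp

lemma emb_injective {τ : ℝ} (hinj : Function.Injective (fun p : ℤ[X] => aeval τ p)) :
    Function.Injective (emb τ) := by
  intro p q h
  apply hinj
  have := congrArg (fun x : Plane => x 0) h
  simpa [emb] using this

/-- The planar set. -/
def planeSet (τ : ℝ) : Set Plane := (emb τ) '' (Good τ)

lemma mem_translate_iff (P : Set Plane) (x y : Plane) : y ∈ translate P x ↔ y - x ∈ P := by
  constructor
  · rintro ⟨p, hp, rfl⟩
    simpa using hp
  · intro h
    exact ⟨y - x, h, by simp⟩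

lemma planeSet_bounded (τ : ℝ) : Bornology.IsBounded (planeSet τ) := by
  rw [Metric.isBounded_iff_subset_closedBall 0]
  refine ⟨1, ?_⟩
  rintro _ ⟨p, ⟨h0, h1, _⟩, rfl⟩
  rw [mem_closedBall_zero_iff]
  have : ‖(emb τ) p‖ = |aeval τ p| := by
    simp [emb]
  rw [this, abs_of_pos h0]
  exact h1.le

lemma planeSet_coverDecomposable {τ : ℝ} (hτ0 : 0 < τ) (hτ1 : τ < 1)
    (hinj : Function.Injective (fun p : ℤ[X] => aeval τ p)) :
    CoverDecomposable.{u} (planeSet τ) := by
  classical
  refine ⟨2, le_rfl, ?_⟩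
  intro ι t hcov
  have hemb := emb_injective hinj
  set H : AddSubgroup Plane := (emb τ).range with hH
  -- for each coset, split the members belonging to it
  have key : ∀ q : Plane ⧸ H, ∃ A : Set ι, ∀ x : Plane, (QuotientAddGroup.mk x : Plane ⧸ H) = q →
      (∃ i ∈ A, x - t i ∈ planeSet τ) ∧ (∃ i, i ∉ A ∧ x - t i ∈ planeSet τ) := by
    intro q
    obtain ⟨g, rfl⟩ := QuotientAddGroup.mk_surjective q
    have hb : ∀ i : {i : ι // t i - g ∈ H}, ∃ p : ℤ[X], emb τ p = t i.1 - g := fun i => i.2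
    choose b hb using hb
    have hmem : ∀ (a : ℤ[X]) (i : ι), (g + emb τ a) - t i ∈ planeSet τ ↔
        ∃ h : t i - g ∈ H, a - b ⟨i, h⟩ ∈ Good τ := by
      intro a i
      constructor
      · rintro ⟨p, hp, hpe⟩
        have h : t i - g ∈ H := by
          refine ⟨a - p, ?_⟩
          rw [map_sub, hpe]
          abel
        refine ⟨h, ?_⟩
        have : a - b ⟨i, h⟩ = p := by
          apply hemb
          rw [map_sub, hb ⟨i, h⟩, hpe]
          abel
        rwa [this]
      · rintro ⟨h, hg⟩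
        refine ⟨_, hg, ?_⟩
        rw [map_sub, hb ⟨i, h⟩]
        abel
    have hc2 : ∀ a : ℤ[X], 2 ≤ Set.encard {i | a - b i ∈ Good τ} := by
      intro a
      have h := hcov (g + emb τ a) (Set.mem_univ _)
      have hset : {i : ι | g + emb τ a ∈ translate (planeSet τ) (t i)} =
          Subtype.val '' {i | a - b i ∈ Good τ} := by
        ext i
        simp only [Set.mem_ofPred_eq, mem_translate_iff, hmem, Set.mem_image, Subtype.exists,
          exists_and_right, exists_eq_right]
      rw [hset, Subtype.val_injective.encard_image] at h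
      exact_mod_cast h
    obtain ⟨A, hA⟩ := coset_split hτ0 hτ1 b hinj hc2
    refine ⟨Subtype.val '' A, fun x hx => ?_⟩
    have hx' : x - g ∈ H := by
      rw [eq_comm, QuotientAddGroup.eq] at hx
      rwa [neg_add_eq_sub] at hx
    obtain ⟨a, ha⟩ := hx'
    have hxa : x = g + emb τ a := by rw [ha]; abel
    subst hxa
    obtain ⟨⟨i, hiA, hi⟩, ⟨j, hjA, hj⟩⟩ := hA a
    refine ⟨⟨i.1, ⟨i, hiA, rfl⟩, (hmem a i.1).2 ⟨i.2, hi⟩⟩, ⟨j.1, ?_, (hmem a j.1).2 ⟨j.2, hj⟩⟩⟩
    rintro ⟨j', hj', he⟩
    exact hjA (Subtype.val_injective he ▸ hj')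
  choose A hA using key
  have hcos : ∀ (x : Plane) (i : ι), x - t i ∈ planeSet τ →
      (QuotientAddGroup.mk x : Plane ⧸ H) = QuotientAddGroup.mk (t i) := by
    rintro x i ⟨p, _, hp⟩
    rw [eq_comm, QuotientAddGroup.eq, neg_add_eq_sub]
    exact ⟨p, hp⟩
  refine ⟨{i | i ∈ A (QuotientAddGroup.mk (t i))}, ?_, ?_⟩
  · intro x _
    obtain ⟨⟨i, hiA, hi⟩, _⟩ := hA _ x rfl
    refine ⟨i, ?_, (mem_translate_iff _ _ _).2 hi⟩
    have := hcos x i hi
    simpa [← this] using hiA
  · intro x _
    obtain ⟨_, ⟨i, hiA, hi⟩⟩ := hA _ x rfl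
    refine ⟨i, ?_, (mem_translate_iff _ _ _).2 hi⟩
    have := hcos x i hi
    simpa [← this] using hiA

/-! ### The finite configurations -/

/-- The points of the configuration. -/
noncomputable def sPoly (N : ℕ) (e : Finset ℕ) : ℤ[X] :=
  X ^ (2 * N) + ∑ i ∈ e, 2 * X ^ (2 * (i + N + 1))

/-- The translation vectors of the configuration. -/
noncomputable def tPoly (N : ℕ) (j : ℕ) : ℤ[X] := X ^ (2 * (j + N + 1))

lemma coeff_diff (N : ℕ) (e : Finset ℕ) (j n : ℕ) :
    (sPoly N e - tPoly N j).coeff n =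
      (if n = 2 * N then 1 else 0) + (∑ i ∈ e, if n = 2 * (i + N + 1) then 2 else 0)
        - (if n = 2 * (j + N + 1) then 1 else 0) := by
  simp only [sPoly, tPoly, coeff_sub, coeff_add, coeff_X_pow, finsetSum_coeff]
  congr 2
  apply Finset.sum_congr rfl
  intro i _
  have : (2 : ℤ[X]) = C 2 := rfl
  rw [this, coeff_C_mul, coeff_X_pow]
  split_ifs <;> simp

lemma phi_diff_iff (N : ℕ) (e : Finset ℕ) (j : ℕ) :
    Phi (sPoly N e - tPoly N j) ↔ j ∈ e := by
  have hodd : ∀ k, Odd k → (sPoly N e - tPoly N j).coeff k = 0 := by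
    intro k hk
    have hne : ∀ m, k ≠ 2 * m := by
      rintro m rfl
      exact (Nat.not_odd_iff_even.2 (even_two_mul m)) hk
    rw [coeff_diff, if_neg (hne _), if_neg (hne _)]
    simp only [zero_add, sub_zero]
    exact Finset.sum_eq_zero (fun i _ => if_neg (hne _))
  constructor
  · rintro (⟨k, hk, hneg, _⟩ | ⟨hnn, _⟩)
    · rw [hodd k hk] at hneg
      exact absurd hneg (lt_irrefl _)
    · by_contra hj
      have h := hnn (2 * (j + N + 1))
      rw [coeff_diff, if_neg (by omega), if_pos rfl, Finset.sum_eq_zero] at h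
      · omega
      · intro i hi
        rw [if_neg]
        intro hcontra
        have : j = i := by omega
        exact hj (this ▸ hi)
  · intro hj
    right
    refine ⟨fun k => ?_, hodd⟩
    rw [coeff_diff]
    have h0 : (0 : ℤ) ≤ if k = 2 * N then 1 else 0 := by split_ifs <;> norm_num
    have h1 : (if k = 2 * (j + N + 1) then 1 else 0 : ℤ) ≤
        ∑ i ∈ e, if k = 2 * (i + N + 1) then 2 else 0 := by
      calc (if k = 2 * (j + N + 1) then 1 else 0 : ℤ)
          ≤ if k = 2 * (j + N + 1) then 2 else 0 := by split_ifs <;> norm_num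
        _ ≤ _ := Finset.single_le_sum
            (f := fun i => if k = 2 * (i + N + 1) then (2 : ℤ) else 0)
            (fun i _ => by split_ifs <;> norm_num) hj
    omega

lemma good_diff_iff {τ : ℝ} (hτ0 : 0 < τ) (hτ1 : τ < 1) {N M : ℕ} (hN : τ ^ N * (1 + 2 * M) < 1)
    {e : Finset ℕ} (he : e.card ≤ M) (j : ℕ) :
    sPoly N e - tPoly N j ∈ Good τ ↔ j ∈ e := by
  rw [← phi_diff_iff N e j]
  constructor
  · exact fun h => h.2.2
  · intro h
    refine ⟨?_, ?_, h⟩
    · simp only [sPoly, tPoly, map_sub, map_add, map_pow, aeval_X, map_sum, map_mul, map_ofNat]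
      have h1 : τ ^ (2 * (j + N + 1)) < τ ^ (2 * N) :=
        pow_lt_pow_right_of_lt_one₀ hτ0 hτ1 (by omega)
      have h2 : 0 ≤ ∑ i ∈ e, 2 * τ ^ (2 * (i + N + 1)) :=
        Finset.sum_nonneg (fun i _ => by positivity)
      linarith
    · simp only [sPoly, tPoly, map_sub, map_add, map_pow, aeval_X, map_sum, map_mul, map_ofNat]
      have h1 : 0 < τ ^ (2 * (j + N + 1)) := pow_pos hτ0 _
      have h2 : ∑ i ∈ e, 2 * τ ^ (2 * (i + N + 1)) ≤ ∑ i ∈ e, 2 * τ ^ N := by
        apply Finset.sum_le_sum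
        intro i _
        have := pow_le_pow_of_le_one hτ0.le hτ1.le (show N ≤ 2 * (i + N + 1) by omega)
        linarith
      have h3 : τ ^ (2 * N) ≤ τ ^ N := pow_le_pow_of_le_one hτ0.le hτ1.le (by omega)
      rw [Finset.sum_const, nsmul_eq_mul] at h2
      have h4 : (e.card : ℝ) ≤ M := by exact_mod_cast he
      have h5 : 0 < τ ^ N := pow_pos hτ0 _
      nlinarith

lemma planeSet_not_totally {τ : ℝ} (hτ0 : 0 < τ) (hτ1 : τ < 1)
    (hinj : Function.Injective (fun p : ℤ[X] => aeval τ p)) :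
    ¬ TotallyCoverDecomposable.{u} (planeSet τ) := by
  classical
  rintro ⟨m, hm, h⟩
  obtain ⟨N, hN⟩ : ∃ N : ℕ, τ ^ N * (1 + 2 * (m : ℝ)) < 1 := by
    obtain ⟨N, hN⟩ := exists_pow_lt_of_lt_one
      (show (0 : ℝ) < 1 / (1 + 2 * (m : ℝ)) by positivity) hτ1
    exact ⟨N, (lt_div_iff₀ (by positivity)).1 hN⟩
  have hemb := emb_injective hinj
  -- the family
  let ι : Type u := ULift.{u} (Fin (2 * m - 1))
  let t : ι → Plane := fun i => emb τ (tPoly N i.down)
  let S : Set Plane := {x | ∃ e : Finset ℕ, e ⊆ Finset.range (2 * m - 1) ∧ e.card = m ∧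
    x = emb τ (sPoly N e)}
  have hmem : ∀ (e : Finset ℕ), e.card = m → ∀ i : ι,
      (emb τ (sPoly N e) ∈ translate (planeSet τ) (t i) ↔ (i.down : ℕ) ∈ e) := by
    intro e he i
    rw [mem_translate_iff, ← good_diff_iff hτ0 hτ1 hN he.le, ← map_sub]
    constructor
    · rintro ⟨p, hp, hpe⟩
      rwa [← hemb hpe]
    · intro hg
      exact ⟨_, hg, rfl⟩
  obtain ⟨A, hA1, hA2⟩ := h S ι t (by
    rintro _ ⟨e, he, hec, rfl⟩
    have hsub : (fun j : {j // j ∈ e} => (⟨⟨j.1, Finset.mem_range.1 (he j.2)⟩⟩ : ι)) ''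
        Set.univ ⊆ {i : ι | emb τ (sPoly N e) ∈ translate (planeSet τ) (t i)} := by
      rintro _ ⟨j, _, rfl⟩
      exact (hmem e hec _).2 j.2
    refine le_trans ?_ (Set.encard_le_encard hsub)
    rw [Function.Injective.encard_image]
    · rw [Set.encard_univ, ENat.card_eq_coe_fintype_card, Fintype.card_coe, hec]
    · intro x y hxy
      have := congrArg (fun z : ι => (z.down : ℕ)) hxy
      exact Subtype.ext this)
  -- one of the two parts contains `m` indices
  have hbig : ∀ B : Set ι, m ≤ Set.ncard B → Covers (planeSet τ) t Bᶜ S → False := by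
    intro B hB hcov
    have hBfin : B.Finite := Set.toFinite B
    set F : Finset ℕ := hBfin.toFinset.image (fun i : ι => (i.down : ℕ)) with hF
    have hinjι : Function.Injective (fun i : ι => (i.down : ℕ)) := by
      rintro ⟨x⟩ ⟨y⟩ hxy
      exact congrArg ULift.up (Fin.ext hxy)
    have hFcard : m ≤ F.card := by
      rw [hF, Finset.card_image_of_injective _ hinjι, ← Set.ncard_eq_toFinset_card B hBfin]
      exact hB
    obtain ⟨e, heF, hec⟩ := Finset.exists_subset_card_eq hFcard
    have heS : emb τ (sPoly N e) ∈ S := by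
      refine ⟨e, ?_, hec, rfl⟩
      intro x hx
      obtain ⟨i, _, rfl⟩ := Finset.mem_image.1 (heF hx)
      exact Finset.mem_range.2 i.down.2
    obtain ⟨i, hiB, hi⟩ := hcov _ heS
    have hie := (hmem e hec i).1 hi
    obtain ⟨i', hi', hii'⟩ := Finset.mem_image.1 (heF hie)
    have : i' = i := hinjι hii'
    subst this
    exact hiB ((Set.Finite.mem_toFinset hBfin).1 hi')
  have hcardι : Nat.card ι = 2 * m - 1 := by
    simp [ι]
  have hsum : Set.ncard A + Set.ncard Aᶜ = 2 * m - 1 := by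
    rw [Set.ncard_add_ncard_compl, hcardι]
  rcases Nat.lt_or_ge (Set.ncard A) m with hlt | hge
  · exact hbig Aᶜ (by omega) (by rwa [compl_compl])
  · exact hbig A hge hA2

/-- There is a bounded subset of the plane which is cover-decomposable but not
totally-cover-decomposable. -/
theorem result : ∃ P : Set Plane, Bornology.IsBounded P ∧ CoverDecomposable.{u} P ∧
    ¬ TotallyCoverDecomposable.{u} P := by
  obtain ⟨τ, hτ, htr⟩ : ∃ τ : ℝ, τ ∈ Set.Ioo (0 : ℝ) 1 ∧ Transcendental ℤ τ := by
    by_contra hcon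
    push Not at hcon
    have hsub : Set.Ioo (0 : ℝ) 1 ⊆ {x : ℝ | IsAlgebraic ℤ x} := by
      intro x hx
      by_contra hx'
      exact hcon x hx hx'
    have h2 := (Algebraic.countable ℤ ℝ).mono hsub
    rw [Cardinal.Real.Ioo_countable_iff] at h2
    linarith
  have hinj : Function.Injective (fun p : ℤ[X] => aeval τ p) :=
    transcendental_iff_injective.1 htr
  exact ⟨planeSet τ, planeSet_bounded τ, planeSet_coverDecomposable hτ.1 hτ.2 hinj,
    planeSet_not_totally hτ.1 hτ.2 hinj⟩

end Pool.Agent.Results.MP_6bd959_co.BoundedExample
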